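import Mathlib

set_option autoImplicit false

namespace Pool.Agent.Results.MP_a93e77_co.Circ13

/-- `P` is an isomorphism from `G` onto its complement. -/
def IsoPerm {V : Type} (G : SimpleGraph V) (P : Equiv.Perm V) : Prop :=
  ∀ u v, u ≠ v → (G.Adj u v ↔ ¬ G.Adj (P u) (P v))

/-- Every edge lies in the same number of triangles, and every two distinct nonadjacent vertices
have the same number of common neighbours. -/
def StronglyReg {V : Type} (G : SimpleGraph V) : Prop :=
  ∃ l m : ℕ, (∀ u v, G.Adj u v → (G.commonNeighbors u v).ncard = l) ∧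
    ∀ u v, u ≠ v → ¬ G.Adj u v → (G.commonNeighbors u v).ncard = m

def S : List (Fin 13) := [1, 2, 4, 9, 11, 12]

def G : SimpleGraph (Fin 13) where
  Adj a b := a - b ∈ S
  symm := ⟨by decide⟩
  loopless := ⟨by decide⟩

instance : DecidableRel G.Adj := fun a b => inferInstanceAs (Decidable (a - b ∈ S))

def P (c : Fin 13) : Equiv.Perm (Fin 13) where
  toFun x := 5 * (x - c) + c
  invFun x := 8 * (x - c) + c
  left_inv := by revert c; decide
  right_inv := by revert c; decide

lemma isoP (c : Fin 13) : IsoPerm G (P c) := by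
  unfold IsoPerm
  change ∀ u v, u ≠ v → (G.Adj u v ↔ ¬ G.Adj (5 * (u - c) + c) (5 * (v - c) + c))
  revert c; decide +kernel

lemma cn (u v : Fin 13) : (G.commonNeighbors u v).ncard =
    (Finset.univ.filter fun w => G.Adj u w ∧ G.Adj v w).card := by
  rw [← Set.ncard_coe_finset]
  congr 1
  ext w
  simp [SimpleGraph.mem_commonNeighbors]

theorem result : ∃ (n : ℕ) (G : SimpleGraph (Fin n)),
    (∃ k, ∀ v, (G.neighborSet v).ncard = k) ∧ Nonempty (G ≃g Gᶜ) ∧
    (∀ v, ∃ P, IsoPerm G P ∧ P v = v) ∧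
    (∀ u v, G.Adj u v → ∃ P, IsoPerm G P ∧ (P u = v ∨ P v = u)) ∧
    ¬ StronglyReg G := by
  refine ⟨13, G, ⟨6, fun v => ?_⟩, ⟨⟨P 0, ?_⟩⟩, fun v => ⟨P v, isoP v, ?_⟩, fun u v h => ?_, ?_⟩
  · rw [← SimpleGraph.coe_neighborFinset, Set.ncard_coe_finset]; revert v; decide
  · intro a b
    rw [SimpleGraph.compl_adj]
    change (5 * (a - 0) + 0 ≠ 5 * (b - 0) + 0 ∧ ¬ G.Adj (5 * (a - 0) + 0) (5 * (b - 0) + 0)) ↔ G.Adj a b
    revert a b; decide
  · change 5 * (v - v) + v = v
    simp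
  · have : ∀ u v : Fin 13, G.Adj u v → ∃ c : Fin 13, 5 * (u - c) + c = v := by decide +kernel
    obtain ⟨c, hc⟩ := this u v h
    exact ⟨P c, isoP c, Or.inl hc⟩
  · rintro ⟨l, m, h, -⟩
    have h1 := h 0 1 (by decide)
    have h2 := h 0 2 (by decide)
    rw [cn] at h1 h2
    rw [← h2] at h1
    revert h1; decide

end Pool.Agent.Results.MP_a93e77_co.Circ13
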